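import Pool.Agent.H705.RO.Stm3

/-! # GRD: union bound over a grid of pairs and Borel-Cantelli (helper233 for helper705) -/

set_option autoImplicit false

namespace Pool.Agent.H233.RO

open MeasureTheory ProbabilityTheory Filter Topology Finset
open Pool.Agent.H705.RO

/-- the difference of the partial sums at two points -/
noncomputable def Df (γ : ℕ → ℝ) (X : ℕ → ℝ × ℝ) (N : ℕ) (x y : ℝ) : ℝ :=
  Real.sqrt y * part (zw γ X) N (Real.log y) - Real.sqrt x * part (zw γ X) N (Real.log x)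

/-- the difference is a sum of waves at the time `0` -/
theorem Df_eq {γ : ℕ → ℝ} {x y : ℝ} (c : ℕ → ℂ)
    (hc : ∀ n, ∀ v : ℝ,
      Real.sqrt y * (2 / ‖rh (γ n)‖ *
        Real.cos (γ n * Real.log y + 2 * Real.pi * v + -Complex.arg (rh (γ n)))) -
      Real.sqrt x * (2 / ‖rh (γ n)‖ *
        Real.cos (γ n * Real.log x + 2 * Real.pi * v + -Complex.arg (rh (γ n)))) =
      2 * ‖c n‖ * Real.cos (2 * Real.pi * v + Complex.arg (c n)))
    (X : ℕ → ℝ × ℝ) (N : ℕ) :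
    Df γ X N x y = ∑ n ∈ Ico 0 N, wave (fun n => 2 * ‖c n‖) (fun n => Complex.arg (c n))
      (fun _ => 0) (fun _ => 0) X n 0 := by
  unfold Df part
  rw [Finset.mul_sum, Finset.mul_sum, ← Finset.sum_sub_distrib, ← Finset.range_eq_Ico]
  refine Finset.sum_congr rfl fun n _ => ?_
  have h1 := hc n (X n).2
  unfold zw wave am be
  simp only [zero_mul, add_zero, mul_zero, zero_add]
  exact h1

theorem one_pair (hHOE : P_HOE) (hIDN : P_IDN) {K c₀ : ℝ} (hK : 0 < K)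
    (hV : ∀ γ : ℕ → ℝ, (∀ n, 1 ≤ γ n) →
      (∀ n : ℕ, c₀ * ((n : ℝ) + 2) / Real.log ((n : ℝ) + 2) ≤ γ n) →
      ∀ x y : ℝ, 2 ≤ x → x + 1 / 2 ≤ y → y ≤ 2 * x + 1 → ∀ M : ℕ,
        ∑ n ∈ range M, (min ((y - x) / Real.sqrt x) (2 * Real.sqrt y / γ n)) ^ 2 ≤
          K * (y - x) * Real.log x)
    {Ω : Type} [MeasurableSpace Ω] {P : Measure Ω} {X : ℕ → Ω → ℝ × ℝ} (hM : Model P X)
    {A : ℕ} {γ : ℕ → ℝ} (hγ : Ord c₀ A γ) {j : ℕ} (hj : 1 ≤ j) (N : ℕ) {x y : ℝ}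
    (h1 : 2 ^ j ≤ x) (h2 : x + 1 / 2 ≤ y) (h3 : y ≤ 2 * x + 1) :
    P {ω | Real.sqrt (160 * K) * Real.sqrt (y - x) * Real.log x ≤
        |Df γ (fun n => X n ω) N x y|} ≤ ENNReal.ofReal (2 * (1 / 2 : ℝ) ^ (20 * j)) := by
  have hx2 : 2 ≤ x := by
    have : (2 : ℝ) ^ 1 ≤ 2 ^ j := pow_le_pow_right₀ one_le_two hj
    linarith
  have hyx : 0 < y - x := by linarith
  have hlog : 0 < Real.log x := Real.log_pos (by linarith)
  choose c hc1 hc2 hc3 using fun n : ℕ => hIDN.2 (γ n) x y (hγ n).1 (by linarith) (by linarith)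
  have hlam : 0 < Real.sqrt (160 * K) * Real.sqrt (y - x) * Real.log x := by positivity
  have hv : 0 < 4 * (K * (y - x) * Real.log x) := by positivity
  have hsum : ∑ n ∈ Ico 0 N, (fun n => 2 * ‖c n‖) n ^ 2 ≤ 4 * (K * (y - x) * Real.log x) := by
    have h4 := hV γ (fun n => (hγ n).1) (fun n => (hγ n).2.1) x y hx2 h2 h3 N
    rw [← Finset.range_eq_Ico]
    calc ∑ n ∈ range N, (2 * ‖c n‖) ^ 2
        ≤ ∑ n ∈ range N, 4 * (min ((y - x) / Real.sqrt x) (2 * Real.sqrt y / γ n)) ^ 2 := by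
          refine Finset.sum_le_sum fun n _ => ?_
          have h5 : ‖c n‖ ≤ min ((y - x) / Real.sqrt x) (2 * Real.sqrt y / γ n) :=
            le_min (hc1 n) (hc2 n)
          have h6 := pow_le_pow_left₀ (norm_nonneg _) h5 2
          nlinarith
      _ = 4 * ∑ n ∈ range N, (min ((y - x) / Real.sqrt x) (2 * Real.sqrt y / γ n)) ^ 2 := by
          rw [Finset.mul_sum]
      _ ≤ _ := by linarith
  have h7 := hHOE Ω P X hM (fun n => 2 * ‖c n‖) (fun n => Complex.arg (c n)) (fun _ => 0)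
    (fun _ => 0) (fun n => by positivity) 0 0 N _ _ hlam hv hsum
  have h8 : {ω | Real.sqrt (160 * K) * Real.sqrt (y - x) * Real.log x ≤
      |Df γ (fun n => X n ω) N x y|} = {ω | Real.sqrt (160 * K) * Real.sqrt (y - x) * Real.log x ≤
      |∑ n ∈ Ico 0 N, wave (fun n => 2 * ‖c n‖) (fun n => Complex.arg (c n))
      (fun _ => 0) (fun _ => 0) (fun n => X n ω) n 0|} := by
    ext ω
    rw [Set.mem_ofPred_eq, Set.mem_ofPred_eq, Df_eq c hc3]
  rw [h8]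
  refine h7.trans (ENNReal.ofReal_le_ofReal ?_)
  have h9 : (Real.sqrt (160 * K) * Real.sqrt (y - x) * Real.log x) ^ 2 /
      (2 * (4 * (K * (y - x) * Real.log x))) = 20 * Real.log x := by
    rw [mul_pow, mul_pow, Real.sq_sqrt (by positivity), Real.sq_sqrt hyx.le]
    field_simp
    ring
  rw [h9]
  refine mul_le_mul_of_nonneg_left ?_ (by norm_num)
  have h10 : (j : ℝ) * Real.log 2 ≤ Real.log x := by
    rw [← Real.log_pow]
    exact Real.log_le_log (by positivity) h1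
  have h11 : (1 / 2 : ℝ) ^ (20 * j) = Real.exp (-(20 * (j * Real.log 2))) := by
    have e1 : -(20 * ((j : ℝ) * Real.log 2)) = ((20 * j : ℕ) : ℝ) * (-Real.log 2) := by
      push_cast
      ring
    rw [e1, Real.exp_nat_mul, Real.exp_neg, Real.exp_log (by norm_num), one_div]
  rw [h11]
  exact Real.exp_le_exp.2 (by linarith)

theorem T_GRD (hHOE : P_HOE) (hIDN : P_IDN) (hVAR : P_VAR) : P_GRD := by
  intro c₀ hc₀
  obtain ⟨K, hK, hV⟩ := hVAR c₀ hc₀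
  refine ⟨Real.sqrt (160 * K), by positivity, ?_⟩
  intro Ω _ P X hM A γ hγ
  have hprob := hM.prob
  let E : ℕ → ℕ → ℕ → Set Ω := fun j i i' => {ω | 1 ≤ j ∧ 2 ^ j ≤ (i : ℝ) / 32 ^ j ∧
    (i : ℝ) / 32 ^ j + 1 / 2 ≤ (i' : ℝ) / 32 ^ j ∧ (i' : ℝ) / 32 ^ j ≤ 2 * ((i : ℝ) / 32 ^ j) + 1 ∧
    Real.sqrt (160 * K) * Real.sqrt ((i' : ℝ) / 32 ^ j - (i : ℝ) / 32 ^ j) *
      Real.log ((i : ℝ) / 32 ^ j) ≤
      |Df γ (fun n => X n ω) (8 ^ (j + 1)) ((i : ℝ) / 32 ^ j) ((i' : ℝ) / 32 ^ j)|}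
  have hE : ∀ j i i', P (E j i i') ≤ ENNReal.ofReal (2 * (1 / 2 : ℝ) ^ (20 * j)) := by
    intro j i i'
    by_cases hcond : 1 ≤ j ∧ 2 ^ j ≤ (i : ℝ) / 32 ^ j ∧
      (i : ℝ) / 32 ^ j + 1 / 2 ≤ (i' : ℝ) / 32 ^ j ∧ (i' : ℝ) / 32 ^ j ≤ 2 * ((i : ℝ) / 32 ^ j) + 1
    · obtain ⟨hj, h1, h2, h3⟩ := hcond
      refine (measure_mono ?_).trans (one_pair hHOE hIDN hK hV hM hγ hj (8 ^ (j + 1)) h1 h2 h3)
      rintro ω ⟨_, _, _, _, h4⟩
      exact h4
    · have hempty : E j i i' = ∅ := by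
        apply Set.eq_empty_of_forall_notMem
        rintro ω ⟨h1, h2, h3, h4, _⟩
        exact hcond ⟨h1, h2, h3, h4⟩
      rw [hempty, measure_empty]
      exact zero_le
  let B : ℕ → Set Ω := fun j => ⋃ i ∈ Finset.range (2 ^ (6 * j + 2)),
    ⋃ i' ∈ Finset.range (2 ^ (6 * j + 4)), E j i i'
  have hB : ∀ j, P (B j) ≤ ENNReal.ofReal (128 * (1 / 2 : ℝ) ^ j) := by
    intro j
    have h4 : ∀ i ∈ Finset.range (2 ^ (6 * j + 2)),
        P (⋃ i' ∈ Finset.range (2 ^ (6 * j + 4)), E j i i') ≤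
          ENNReal.ofReal (2 ^ (6 * j + 4) * (2 * (1 / 2 : ℝ) ^ (20 * j))) := by
      intro i _
      refine (measure_biUnion_finset_le _ _).trans ?_
      refine (Finset.sum_le_card_nsmul _ _ _ fun i' _ => hE j i i').trans ?_
      rw [nsmul_eq_mul, Finset.card_range, ← ENNReal.ofReal_natCast,
        ← ENNReal.ofReal_mul (Nat.cast_nonneg _)]
      apply ENNReal.ofReal_le_ofReal
      push_cast
      exact le_rfl
    refine (measure_biUnion_finset_le _ _).trans ?_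
    refine (Finset.sum_le_card_nsmul _ _ _ h4).trans ?_
    rw [nsmul_eq_mul, Finset.card_range, ← ENNReal.ofReal_natCast,
      ← ENNReal.ofReal_mul (Nat.cast_nonneg _)]
    apply ENNReal.ofReal_le_ofReal
    push_cast
    have h5 : (1 / 2 : ℝ) ^ (20 * j) = (1 / 2 : ℝ) ^ (12 * j) * ((1 / 2 : ℝ) ^ j * (1 / 2 : ℝ) ^ (7 * j)) := by
      rw [← pow_add, ← pow_add]
      congr 1
      ring
    have h6 : (2 : ℝ) ^ (12 * j) * (1 / 2 : ℝ) ^ (12 * j) = 1 := by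
      rw [← mul_pow]
      norm_num
    have h7 : (1 / 2 : ℝ) ^ (7 * j) ≤ 1 := pow_le_one₀ (by norm_num) (by norm_num)
    have h8 : (0 : ℝ) ≤ (1 / 2 : ℝ) ^ j := by positivity
    have h9 : (2 : ℝ) ^ (6 * j + 2) * (2 ^ (6 * j + 4) * (2 * (1 / 2 : ℝ) ^ (20 * j))) =
        128 * (((2 : ℝ) ^ (12 * j) * (1 / 2 : ℝ) ^ (12 * j)) *
          ((1 / 2 : ℝ) ^ j * (1 / 2 : ℝ) ^ (7 * j))) := by
      have e1 : (2 : ℝ) ^ (6 * j + 2) * 2 ^ (6 * j + 4) = 64 * 2 ^ (12 * j) := by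
        rw [← pow_add]
        have e2 : 6 * j + 2 + (6 * j + 4) = 12 * j + 6 := by ring
        rw [e2, pow_add]
        ring
      rw [h5, ← mul_assoc, e1]
      ring
    rw [h9, h6, one_mul]
    nlinarith
  have hs : Summable (fun j : ℕ => 128 * (1 / 2 : ℝ) ^ j) :=
    (summable_geometric_of_lt_one (by norm_num) (by norm_num)).mul_left _
  have hsum : ∑' j, P (B j) ≠ ⊤ :=
    ne_top_of_le_ne_top hs.tsum_ofReal_ne_top (ENNReal.tsum_le_tsum hB)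
  filter_upwards [ae_finite_setOfPred_mem hsum] with ω hω
  obtain ⟨K1, hK1⟩ := hω.bddAbove
  filter_upwards [eventually_ge_atTop (K1 + 1)] with j hj
  intro i i' x y hx hy h1 h2 h3 h4
  by_contra hcon
  rw [not_le] at hcon
  have h32 : (0 : ℝ) < 32 ^ j := by positivity
  have hpow : (32 : ℝ) ^ j = 2 ^ (5 * j) := by
    rw [pow_mul]
    norm_num
  have hi : i < 2 ^ (6 * j + 2) := by
    have h5 : (i : ℝ) ≤ 2 ^ (j + 1) * 32 ^ j := by
      rw [hx, div_le_iff₀ h32] at h2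
      exact h2
    have h6 : (2 : ℝ) ^ (j + 1) * 32 ^ j < 2 ^ (6 * j + 2) := by
      rw [hpow, ← pow_add]
      exact pow_lt_pow_right₀ one_lt_two (by omega)
    exact_mod_cast lt_of_le_of_lt h5 h6
  have hi' : i' < 2 ^ (6 * j + 4) := by
    have h5 : y ≤ 2 ^ (j + 3) := by
      have e1 : (2 : ℝ) ^ (j + 3) = 4 * 2 ^ (j + 1) := by
        rw [pow_add, pow_add]
        ring
      have e2 : (1 : ℝ) ≤ 2 ^ (j + 1) := one_le_pow₀ one_le_two
      rw [e1]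
      linarith
    have h6 : (i' : ℝ) ≤ 2 ^ (j + 3) * 32 ^ j := by
      rw [hy, div_le_iff₀ h32] at h5
      exact h5
    have h7 : (2 : ℝ) ^ (j + 3) * 32 ^ j < 2 ^ (6 * j + 4) := by
      rw [hpow, ← pow_add]
      exact pow_lt_pow_right₀ one_lt_two (by omega)
    exact_mod_cast lt_of_le_of_lt h6 h7
  have hmem : j ∈ {j | ω ∈ B j} := by
    rw [Set.mem_ofPred_eq]
    refine Set.mem_iUnion₂.2 ⟨i, Finset.mem_range.2 hi, Set.mem_iUnion₂.2
      ⟨i', Finset.mem_range.2 hi', ?_⟩⟩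
    subst hx hy
    exact ⟨by omega, h1, h3, h4, hcon.le⟩
  have := hK1 hmem
  omega

end Pool.Agent.H233.RO
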